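import Pool.Agent.Y223.G.Stm2

/-!
Transport of étale coordinates along an isomorphism.
-/

set_option autoImplicit false

namespace Pool.Agent.Y461.G

open Pool.Agent.Y223.G

theorem t_TRA : Pool.Agent.Y223.G.S_TRA := by
  intro O K _ _ _ A A' t φ hφ q ι _ v h
  obtain ⟨g, hg, h⟩ := h
  refine ⟨φ g, fun hq => hg (Ideal.mem_comap.mpr hq), ?_⟩
  have hM : (Submonoid.powers g).map φ.toMonoidHom = Submonoid.powers (φ g) := by
    rw [Submonoid.map_powers]; rfl
  set e2 : Localization.Away g ≃+* Localization.Away (φ g) :=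
    IsLocalization.ringEquivOfRingEquiv (M := Submonoid.powers g) (T := Submonoid.powers (φ g))
      (Localization.Away g) (Localization.Away (φ g)) φ hM with he2
  have h2 : ∀ a : A, e2 (algebraMap A (Localization.Away g) a)
      = algebraMap A' (Localization.Away (φ g)) (φ a) := fun a =>
    IsLocalization.ringEquivOfRingEquiv_eq (M := Submonoid.powers g)
      (T := Submonoid.powers (φ g)) hM a
  have h1 := RingHom.Etale.respectsIso.1 _ e2 h
  have h3 := RingHom.Etale.respectsIso.2 _ (MvPolynomial.mapEquiv ι t).symm h1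
  convert h3 using 1
  refine MvPolynomial.ringHom_ext ?_ ?_
  · intro o
    simp only [RingHom.comp_apply, AlgHom.toRingHom_eq_coe, RingHom.coe_coe,
      RingEquiv.toRingHom_eq_coe, MvPolynomial.aeval_C]
    have : (MvPolynomial.mapEquiv ι t).symm (MvPolynomial.C o) = MvPolynomial.C (t.symm o) := by
      rw [RingEquiv.symm_apply_eq]
      simp
    rw [this, MvPolynomial.aeval_C, h2, hφ]
    simp
  · intro i
    simp only [RingHom.comp_apply, AlgHom.toRingHom_eq_coe, RingHom.coe_coe,
      RingEquiv.toRingHom_eq_coe, MvPolynomial.aeval_X]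
    have : (MvPolynomial.mapEquiv ι t).symm (MvPolynomial.X i) = MvPolynomial.X i := by
      rw [RingEquiv.symm_apply_eq]
      simp
    rw [this, MvPolynomial.aeval_X, h2]

end Pool.Agent.Y461.G
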